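import Pool.Agent.H654R5.PT.Stm

/-!
# The cyclotomic polynomial of `3 ^ (l + 1)` is irreducible over `GF(2)`
-/

namespace Pool.Agent.H654R5.PT.CYC

open Polynomial

theorem dvd_of_pow (l k : ℕ) (h : 3 ^ (l + 1) ∣ 2 ^ k - 1) : 2 * 3 ^ l ∣ k := by
  rcases Nat.eq_zero_or_pos k with h0 | h0
  · rw [h0]; exact dvd_zero _
  have h3 : 3 ∣ 2 ^ k - 1 := dvd_trans (dvd_pow_self 3 (by omega)) h
  have hev : Even k := by
    by_contra hodd
    rw [Nat.not_even_iff_odd] at hodd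
    obtain ⟨m, hm⟩ := hodd
    have h4 : 2 ^ k % 3 = 2 := by
      rw [hm, pow_succ, pow_mul, Nat.mul_mod, Nat.pow_mod]
      norm_num
    have h5 : 1 ≤ 2 ^ k := Nat.one_le_two_pow
    omega
  obtain ⟨m, hm⟩ := hev
  have hk : k = 2 * m := by omega
  have hm0 : m ≠ 0 := by omega
  have e : 2 ^ k - 1 = 4 ^ m - 1 ^ m := by rw [hk, pow_mul, one_pow]; norm_num
  have : Fact (Nat.Prime 3) := ⟨Nat.prime_three⟩
  have hv := padicValNat.pow_sub_pow (p := 3) (x := 4) (y := 1) (by decide) (by norm_num)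
    (by norm_num) (by norm_num) hm0
  have hne : (4 : ℕ) ^ m - 1 ^ m ≠ 0 := by
    have : 4 ^ 1 ≤ 4 ^ m := Nat.pow_le_pow_right (by norm_num) (by omega)
    rw [one_pow]; omega
  rw [e, padicValNat_dvd_iff_le hne, hv] at h
  have e1 : padicValNat 3 (4 - 1) = 1 := by norm_num
  rw [e1] at h
  have h6 : 3 ^ l ∣ m := (padicValNat_dvd_iff_le hm0).2 (by omega)
  rw [hk]
  exact Nat.mul_dvd_mul_left 2 h6

theorem order_eq (l : ℕ) (hc : Nat.Coprime 2 (3 ^ (l + 1))) :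
    orderOf (ZMod.unitOfCoprime 2 hc) = 2 * 3 ^ l := by
  have htot : Nat.totient (3 ^ (l + 1)) = 2 * 3 ^ l := by
    rw [Nat.totient_prime_pow_succ Nat.prime_three]
    ring
  apply Nat.dvd_antisymm
  · have h1 := ZMod.pow_totient (ZMod.unitOfCoprime 2 hc)
    rw [htot] at h1
    exact orderOf_dvd_of_pow_eq_one h1
  · apply dvd_of_pow
    have h1 := pow_orderOf_eq_one (ZMod.unitOfCoprime 2 hc)
    have h2 := congrArg Units.val h1
    rw [Units.val_pow_eq_pow_val, ZMod.coe_unitOfCoprime, Units.val_one] at h2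
    set k := orderOf (ZMod.unitOfCoprime 2 hc)
    have h3 : ((2 ^ k - 1 : ℕ) : ZMod (3 ^ (l + 1))) = 0 := by
      rw [Nat.cast_sub Nat.one_le_two_pow]
      push_cast
      rw [Nat.cast_ofNat] at h2
      rw [h2, sub_self]
    exact (ZMod.natCast_eq_zero_iff _ _).1 h3

end Pool.Agent.H654R5.PT.CYC

namespace Pool.Agent.H654R5.PT

open CYC in
theorem CYC.CYC_proof : S_CYC := by
  intro l
  have : Fact (Nat.Prime 2) := ⟨Nat.prime_two⟩
  have htot : Nat.totient (3 ^ (l + 1)) = 2 * 3 ^ l := by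
    rw [Nat.totient_prime_pow_succ Nat.prime_three]
    ring
  have hdeg : (Polynomial.cyclotomic (3 ^ (l + 1)) (ZMod 2)).natDegree = 2 * 3 ^ l := by
    rw [Polynomial.natDegree_cyclotomic, htot]
  refine ⟨?_, hdeg⟩
  have hn : ¬ 2 ∣ 3 ^ (l + 1) := by
    intro h
    have := Nat.Prime.dvd_of_dvd_pow Nat.prime_two h
    omega
  apply ZMod.irreducible_of_dvd_cyclotomic_of_natDegree hn dvd_rfl
  rw [hdeg, order_eq]

end Pool.Agent.H654R5.PT
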