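import Pool.Agent.H654R5.PT.Stm

/-!
# The hybrid argument in abstract form
-/

namespace Pool.Agent.H654R5.PT.HYB

open Finset

open Classical in
/-- the fraction of the extensions of the first `i` bits of `w` lying in `W` -/
noncomputable def mu {t : ℕ} (W : Finset (Fin t → Bool)) (i : ℕ) (w : Fin t → Bool) : ℚ :=
  ((W.filter (fun u => ∀ k : Fin t, k.val < i → u k = w k)).card : ℚ) / 2 ^ (t - i)

theorem mu_zero {t : ℕ} (W : Finset (Fin t → Bool)) (w : Fin t → Bool) :
    mu W 0 w = (W.card : ℚ) / 2 ^ t := by
  unfold mu
  rw [Finset.filter_true_of_mem (by intro u _ k hk; omega)]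
  simp

open Classical in
theorem mu_last {t : ℕ} (W : Finset (Fin t → Bool)) (w : Fin t → Bool) :
    mu W t w = if w ∈ W then 1 else 0 := by
  unfold mu
  have h : W.filter (fun u => ∀ k : Fin t, k.val < t → u k = w k) = W.filter (fun u => u = w) := by
    apply Finset.filter_congr
    intro u _
    constructor
    · intro h; funext k; exact h k k.2
    · intro h k _; rw [h]
  rw [h, Finset.filter_eq']
  split_ifs <;> simp

open Classical in
theorem mu_rec {t : ℕ} (W : Finset (Fin t → Bool)) (i : Fin t) (w : Fin t → Bool) :
    mu W i.val w = (mu W (i.val + 1) (Function.update w i false) +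
      mu W (i.val + 1) (Function.update w i true)) / 2 := by
  have hi := i.2
  unfold mu
  have h : W.filter (fun u => ∀ k : Fin t, k.val < i.val → u k = w k) =
      W.filter (fun u => ∀ k : Fin t, k.val < i.val + 1 → u k = Function.update w i false k) ∪
      W.filter (fun u => ∀ k : Fin t, k.val < i.val + 1 → u k = Function.update w i true k) := by
    ext u
    simp only [Finset.mem_union, Finset.mem_filter]
    constructor
    · rintro ⟨hu, h⟩
      have key : ∀ b, u i = b → ∀ k : Fin t, k.val < i.val + 1 → u k = Function.update w i b k := by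
        intro b hb k hk
        by_cases hki : k = i
        · subst hki; rw [Function.update_self]; exact hb
        · rw [Function.update_of_ne hki]
          apply h
          have : k.val ≠ i.val := fun h => hki (Fin.ext h)
          omega
      cases hb : u i
      · left; exact ⟨hu, key _ hb⟩
      · right; exact ⟨hu, key _ hb⟩
    · have key : ∀ b, (∀ k : Fin t, k.val < i.val + 1 → u k = Function.update w i b k) →
          ∀ k : Fin t, k.val < i.val → u k = w k := by
        intro b h k hk
        have hki : k ≠ i := by intro h; rw [h] at hk; omega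
        rw [h k (by omega), Function.update_of_ne hki]
      rintro (⟨hu, h⟩ | ⟨hu, h⟩)
      · exact ⟨hu, key _ h⟩
      · exact ⟨hu, key _ h⟩
  rw [h, Finset.card_union_of_disjoint]
  · have e : t - i.val = (t - (i.val + 1)) + 1 := by omega
    rw [e, pow_succ]
    push_cast
    field_simp
  · rw [Finset.disjoint_left]
    intro u h1 h2
    rw [Finset.mem_filter] at h1 h2
    have h3 := h1.2 i (by omega)
    have h4 := h2.2 i (by omega)
    rw [Function.update_self] at h3 h4
    rw [h3] at h4
    exact absurd h4 (by decide)

theorem mu_bound {t : ℕ} (W : Finset (Fin t → Bool)) : ∀ (n i : ℕ), i + n = t →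
    ∀ w : Fin t → Bool, 0 ≤ mu W i w ∧ mu W i w ≤ 1 := by
  intro n
  induction n with
  | zero =>
    intro i hi w
    have : i = t := by omega
    subst this
    rw [mu_last]
    split_ifs <;> norm_num
  | succ n ih =>
    intro i hi w
    have hit : i < t := by omega
    have h := mu_rec W ⟨i, hit⟩ w
    have h1 := ih (i + 1) (by omega) (Function.update w ⟨i, hit⟩ false)
    have h2 := ih (i + 1) (by omega) (Function.update w ⟨i, hit⟩ true)
    simp only at h
    rw [h]
    constructor
    · linarith [h1.1, h2.1]
    · linarith [h1.2, h2.2]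

theorem mu_congr {t : ℕ} (W : Finset (Fin t → Bool)) (i : ℕ) (w w' : Fin t → Bool)
    (h : ∀ k : Fin t, k.val < i → w k = w' k) : mu W i w = mu W i w' := by
  classical
  unfold mu
  have h2 : W.filter (fun u => ∀ k : Fin t, k.val < i → u k = w k) =
      W.filter (fun u => ∀ k : Fin t, k.val < i → u k = w' k) := by
    apply Finset.filter_congr
    intro u _
    constructor
    · intro h1 k hk; rw [h1 k hk, h k hk]
    · intro h1 k hk; rw [h1 k hk, h k hk]
  simp only [h2]

/-- the difference of the two extensions by one bit -/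
noncomputable def Dd {t : ℕ} (W : Finset (Fin t → Bool)) (i : Fin t) (w : Fin t → Bool) : ℚ :=
  mu W (i.val + 1) (Function.update w i false) - mu W (i.val + 1) (Function.update w i true)

theorem Dd_abs {t : ℕ} (W : Finset (Fin t → Bool)) (i : Fin t) (w : Fin t → Bool) :
    |Dd W i w| ≤ 1 := by
  have h1 := mu_bound W (t - (i.val + 1)) (i.val + 1) (by have := i.2; omega)
    (Function.update w i false)
  have h2 := mu_bound W (t - (i.val + 1)) (i.val + 1) (by have := i.2; omega)
    (Function.update w i true)
  unfold Dd
  rw [abs_le]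
  constructor
  · linarith [h1.1, h2.2]
  · linarith [h1.2, h2.1]

theorem Dd_congr {t : ℕ} (W : Finset (Fin t → Bool)) (i : Fin t) (w w' : Fin t → Bool)
    (h : ∀ k : Fin t, k < i → w k = w' k) : Dd W i w = Dd W i w' := by
  have key : ∀ b, mu W (i.val + 1) (Function.update w i b) =
      mu W (i.val + 1) (Function.update w' i b) := by
    intro b
    apply mu_congr
    intro k hk
    by_cases hki : k = i
    · subst hki; rw [Function.update_self, Function.update_self]
    · rw [Function.update_of_ne hki, Function.update_of_ne hki]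
      apply h
      have : k.val ≠ i.val := fun h => hki (Fin.ext h)
      exact Fin.lt_def.2 (by omega)
  unfold Dd
  rw [key, key]

theorem mu_step {t : ℕ} (W : Finset (Fin t → Bool)) (i : Fin t) (w : Fin t → Bool) :
    mu W (i.val + 1) w - mu W i.val w = (sg (w i) : ℚ) * Dd W i w / 2 := by
  have h1 := mu_rec W i w
  have h2 : mu W (i.val + 1) w = mu W (i.val + 1) (Function.update w i (w i)) := by
    rw [Function.update_eq_self]
  unfold Dd
  cases hb : w i
  · rw [hb] at h2
    rw [h1, h2]
    simp [sg]
    ring
  · rw [hb] at h2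
    rw [h1, h2]
    simp [sg]
    ring

/-- summation over all strings by first fixing the bits outside of the image -/
theorem sum_extend {a d : ℕ} (σ : Fin a → Fin d) (hσ : Function.Injective σ)
    (F : (Fin d → Bool) → ℚ) :
    ∑ s0 : Fin d → Bool, ∑ z : Fin a → Bool, F (Function.extend σ z s0) =
      2 ^ a * ∑ s : Fin d → Bool, F s := by
  have h1 : ∀ s0 : Fin d → Bool, ∑ z : Fin a → Bool, F (Function.extend σ z s0) =
      ∑ z : Fin a → Bool, F (fun k => xor (s0 k) (Function.extend σ z (fun _ => false) k)) := by
    intro s0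
    let e : (Fin a → Bool) ≃ (Fin a → Bool) :=
      { toFun := fun z l => xor (s0 (σ l)) (z l)
        invFun := fun z l => xor (s0 (σ l)) (z l)
        left_inv := by intro z; funext l; simp
        right_inv := by intro z; funext l; simp }
    refine Fintype.sum_equiv e _ _ ?_
    intro z
    congr 1
    funext k
    by_cases hk : ∃ l, σ l = k
    · obtain ⟨l, rfl⟩ := hk
      rw [hσ.extend_apply, hσ.extend_apply]
      simp [e]
    · rw [Function.extend_apply' _ _ _ hk, Function.extend_apply' _ _ _ hk]
      simp
  rw [Finset.sum_congr rfl (fun s0 _ => h1 s0), Finset.sum_comm]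
  have h2 : ∀ z : Fin a → Bool, ∑ s0 : Fin d → Bool,
      F (fun k => xor (s0 k) (Function.extend σ z (fun _ => false) k)) = ∑ s, F s := by
    intro z
    let e : (Fin d → Bool) ≃ (Fin d → Bool) :=
      { toFun := fun s k => xor (s k) (Function.extend σ z (fun _ => false) k)
        invFun := fun s k => xor (s k) (Function.extend σ z (fun _ => false) k)
        left_inv := by intro z; funext l; simp
        right_inv := by intro z; funext l; simp }
    exact Fintype.sum_equiv e _ _ (fun s => rfl)
  rw [Finset.sum_congr rfl (fun z _ => h2 z), Finset.sum_const, Finset.card_univ,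
    Fintype.card_fun, Fintype.card_bool, Fintype.card_fin, nsmul_eq_mul]
  push_cast
  rfl

end Pool.Agent.H654R5.PT.HYB

namespace Pool.Agent.H654R5.PT

open HYB Finset in
theorem HYB.HYB_proof : S_HYB := by
  classical
  intro ι t d a B L S C W X ht hS hB hX hL
  -- the output
  set E : ι → (Fin d → Bool) → (Fin t → Bool) := fun x s i => C x (fun l => s (S i l)) with hE
  have hstep : ∀ x ∈ X, ∃ i : Fin t, (2 ^ d : ℚ) ≤
      4 * t * ∑ s : Fin d → Bool, (sg (C x (fun l => s (S i l))) : ℚ) * Dd W i (E x s) := by
    intro x hx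
    by_contra hcon
    push_neg at hcon
    have htel : ∀ n ≤ t, (8 * t : ℚ) * (∑ s : Fin d → Bool, (mu W n (E x s) - mu W 0 (E x s))) ≤
        n * 2 ^ d ∧ (0 < n → (8 * t : ℚ) * (∑ s : Fin d → Bool, (mu W n (E x s) -
        mu W 0 (E x s))) < n * 2 ^ d) := by
      intro n
      induction n with
      | zero => intro _; simp
      | succ n ih =>
        intro hn
        have h1 := (ih (by omega)).1
        have h2 := hcon ⟨n, by omega⟩
        have h3 : ∑ s : Fin d → Bool, (mu W (n + 1) (E x s) - mu W n (E x s)) =
            (∑ s : Fin d → Bool, (sg (C x (fun l => s (S ⟨n, by omega⟩ l))) : ℚ) *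
              Dd W ⟨n, by omega⟩ (E x s)) / 2 := by
          rw [Finset.sum_div]
          refine Finset.sum_congr rfl (fun s _ => ?_)
          exact mu_step W ⟨n, by omega⟩ (E x s)
        have h4 : ∑ s : Fin d → Bool, (mu W (n + 1) (E x s) - mu W 0 (E x s)) =
            ∑ s : Fin d → Bool, (mu W (n + 1) (E x s) - mu W n (E x s)) +
            ∑ s : Fin d → Bool, (mu W n (E x s) - mu W 0 (E x s)) := by
          rw [← Finset.sum_add_distrib]
          refine Finset.sum_congr rfl (fun s _ => ?_)
          ring
        have h5 : (8 * t : ℚ) * (∑ s : Fin d → Bool, (mu W (n + 1) (E x s) -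
            mu W 0 (E x s))) < ((n + 1 : ℕ) : ℚ) * 2 ^ d := by
          rw [h4, h3]
          push_cast
          have h6 : (8 * t : ℚ) * ((∑ s : Fin d → Bool,
              (sg (C x (fun l => s (S ⟨n, by omega⟩ l))) : ℚ) *
              Dd W ⟨n, by omega⟩ (E x s)) / 2) < 2 ^ d := by
            have h7 : (8 * t : ℚ) * ((∑ s : Fin d → Bool,
              (sg (C x (fun l => s (S ⟨n, by omega⟩ l))) : ℚ) *
              Dd W ⟨n, by omega⟩ (E x s)) / 2) = 4 * t * (∑ s : Fin d → Bool,
              (sg (C x (fun l => s (S ⟨n, by omega⟩ l))) : ℚ) *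
              Dd W ⟨n, by omega⟩ (E x s)) := by ring
            rw [h7]
            exact h2
          nlinarith
        exact ⟨h5.le, fun _ => h5⟩
    have h1 := (htel t le_rfl).2 (by omega)
    have ht0 : (0 : ℚ) < t := by exact_mod_cast (by omega : 0 < t)
    have h2 : ∑ s : Fin d → Bool, (mu W t (E x s) - mu W 0 (E x s)) < 2 ^ d / 8 := by
      rw [lt_div_iff₀ (by norm_num)]
      by_contra h3
      push_neg at h3
      have : (t : ℚ) * 2 ^ d ≤ t * ((∑ s : Fin d → Bool, (mu W t (E x s) - mu W 0 (E x s))) * 8) :=
        mul_le_mul_of_nonneg_left h3 ht0.le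
      nlinarith
    have h3 := hX x hx
    rw [Finset.sum_sub_distrib] at h2
    have h4 : ∑ s : Fin d → Bool, mu W 0 (E x s) = 2 ^ d * ((W.card : ℚ) / 2 ^ t) := by
      rw [Finset.sum_congr rfl (fun s _ => mu_zero W (E x s)), Finset.sum_const,
        Finset.card_univ, Fintype.card_fun, Fintype.card_bool, Fintype.card_fin, nsmul_eq_mul]
      push_cast
      rfl
    have h5 : ∑ s : Fin d → Bool, mu W t (E x s) =
        ((Finset.univ.filter (fun s : Fin d → Bool =>
          (fun i => C x (fun l => s (S i l))) ∈ W)).card : ℚ) := by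
      rw [Finset.sum_congr rfl (fun s _ => mu_last W (E x s)), Finset.sum_ite]
      simp [hE]
    rw [h4, h5] at h2
    have hd : (0 : ℚ) < 2 ^ d := by positivity
    rw [le_div_iff₀ hd] at h3
    nlinarith
  -- fix the bits outside of the image
  have hstep2 : ∀ x ∈ X, ∃ (p : Fin t × (Fin d → Bool)), (2 ^ a : ℚ) ≤
      4 * t * ∑ z : Fin a → Bool, (sg (C x z) : ℚ) *
        Dd W p.1 (E x (Function.extend (S p.1) z p.2)) := by
    intro x hx
    obtain ⟨i, hi⟩ := hstep x hx
    by_contra hcon
    push_neg at hcon
    have h1 : ∀ s0 : Fin d → Bool, 4 * t * ∑ z : Fin a → Bool, (sg (C x z) : ℚ) *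
        Dd W i (E x (Function.extend (S i) z s0)) < 2 ^ a := fun s0 => hcon (i, s0)
    have h2 := sum_extend (S i) (hS i) (fun s => (sg (C x (fun l => s (S i l))) : ℚ) *
      Dd W i (E x s))
    have h3 : ∀ s0 : Fin d → Bool, ∑ z : Fin a → Bool,
        (sg (C x (fun l => Function.extend (S i) z s0 (S i l))) : ℚ) *
        Dd W i (E x (Function.extend (S i) z s0)) = ∑ z : Fin a → Bool, (sg (C x z) : ℚ) *
        Dd W i (E x (Function.extend (S i) z s0)) := by
      intro s0
      refine Finset.sum_congr rfl (fun z _ => ?_)
      have : (fun l => Function.extend (S i) z s0 (S i l)) = z := by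
        funext l; exact (hS i).extend_apply z s0 l
      rw [this]
    simp only [h3] at h2
    have h4 : ∑ s0 : Fin d → Bool, (4 * t * ∑ z : Fin a → Bool, (sg (C x z) : ℚ) *
        Dd W i (E x (Function.extend (S i) z s0))) < ∑ s0 : Fin d → Bool, (2 ^ a : ℚ) :=
      Finset.sum_lt_sum_of_nonempty ⟨fun _ => false, Finset.mem_univ _⟩ (fun s0 _ => h1 s0)
    rw [← Finset.mul_sum, h2, Finset.sum_const, Finset.card_univ, Fintype.card_fun,
      Fintype.card_bool, Fintype.card_fin, nsmul_eq_mul] at h4
    push_cast at h4
    have ha : (0 : ℚ) < 2 ^ a := by positivity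
    nlinarith
  -- the pieces
  set XX : Fin t × (Fin d → Bool) → Finset ι := fun p => X.filter (fun x => (2 ^ a : ℚ) ≤
      4 * t * ∑ z : Fin a → Bool, (sg (C x z) : ℚ) *
        Dd W p.1 (E x (Function.extend (S p.1) z p.2))) with hXX
  have hcover : X ⊆ Finset.univ.biUnion XX := by
    intro x hx
    obtain ⟨p, hp⟩ := hstep2 x hx
    exact Finset.mem_biUnion.2 ⟨p, Finset.mem_univ _, Finset.mem_filter.2 ⟨hx, hp⟩⟩
  have hpiece : ∀ p, (XX p).card ≤ 2 ^ B * L := by
    rintro ⟨i, s0⟩
    -- tables
    let Tab : Type := (j : {j : Fin t // j < i}) →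
      (({l : Fin a // ∃ l', S i l = S j.1 l'} → Bool) → Bool)
    let tab : ι → Tab := fun x j zz => C x (fun l' => Function.extend (S i)
      (fun l => if h : ∃ l', S i l = S j.1 l' then zz ⟨l, h⟩ else false) s0 (S j.1 l'))
    have htab : ∀ x y, tab x = tab y → ∀ z : Fin a → Bool, ∀ j < i,
        E x (Function.extend (S i) z s0) j = E y (Function.extend (S i) z s0) j := by
      intro x y hxy z j hj
      have h1 := congrFun (congrFun hxy ⟨j, hj⟩) (fun l => z l.1)
      have h2 : (fun l' => Function.extend (S i)
          (fun l => if h : ∃ l', S i l = S j l' then z l else false) s0 (S j l')) =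
          (fun l' => Function.extend (S i) z s0 (S j l')) := by
        funext l'
        by_cases hk : ∃ l, S i l = S j l'
        · obtain ⟨l, hl⟩ := hk
          rw [← hl, (hS i).extend_apply, (hS i).extend_apply, dif_pos ⟨l', hl⟩]
        · rw [Function.extend_apply' _ _ _ hk, Function.extend_apply' _ _ _ hk]
      simp only [tab] at h1
      rw [h2] at h1
      exact h1
    have hfib : ∀ b ∈ (XX (i, s0)).image tab, ((XX (i, s0)).filter (fun x => tab x = b)).card
        ≤ L := by
      intro b hb
      obtain ⟨x0, hx0, hx0b⟩ := Finset.mem_image.1 hb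
      apply hL (fun z => Dd W i (E x0 (Function.extend (S i) z s0))) (fun z => Dd_abs W i _)
      · intro x hx
        exact (Finset.mem_filter.1 ((Finset.mem_filter.1 hx).1)).1
      · intro x hx
        have h1 := (Finset.mem_filter.1 ((Finset.mem_filter.1 hx).1)).2
        have h2 := (Finset.mem_filter.1 hx).2
        have h3 : ∀ z, Dd W i (E x (Function.extend (S i) z s0)) =
            Dd W i (E x0 (Function.extend (S i) z s0)) := by
          intro z
          apply Dd_congr
          intro k hk
          exact htab x x0 (by rw [h2, hx0b]) z k hk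
        simp only [h3] at h1
        exact h1
    have h1 := Finset.card_le_mul_card_image (s := XX (i, s0)) (f := tab) L hfib
    have h2 : ((XX (i, s0)).image tab).card ≤ 2 ^ B := by
      refine le_trans (Finset.card_le_univ _) ?_
      have h3 : Fintype.card Tab = 2 ^ ∑ j : {j : Fin t // j < i},
          2 ^ Fintype.card {l : Fin a // ∃ l', S i l = S j.1 l'} := by
        simp only [Tab]
        rw [Fintype.card_pi, ← Finset.prod_pow_eq_pow_sum]
        refine Finset.prod_congr rfl (fun j _ => ?_)
        rw [Fintype.card_fun, Fintype.card_bool, Fintype.card_fun, Fintype.card_bool]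
      rw [h3]
      apply Nat.pow_le_pow_right (by norm_num)
      refine le_trans (le_of_eq ?_) (hB i)
      rw [Finset.sum_subtype (p := fun j => j < i) (Finset.univ.filter (fun j => j < i))
        (by intro x; simp) (fun j => 2 ^ (Finset.univ.filter (fun l => ∃ l', S i l = S j l')).card)]
      refine Finset.sum_congr rfl (fun j _ => ?_)
      rw [Fintype.card_subtype]
    calc (XX (i, s0)).card ≤ L * ((XX (i, s0)).image tab).card := h1
      _ ≤ L * 2 ^ B := Nat.mul_le_mul_left _ h2
      _ = 2 ^ B * L := Nat.mul_comm _ _
  calc X.card ≤ (Finset.univ.biUnion XX).card := Finset.card_le_card hcover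
    _ ≤ (Finset.univ : Finset (Fin t × (Fin d → Bool))).card * (2 ^ B * L) :=
        Finset.card_biUnion_le_card_mul _ _ _ (fun p _ => hpiece p)
    _ = t * 2 ^ d * 2 ^ B * L := by
        rw [Finset.card_univ, Fintype.card_prod, Fintype.card_fun, Fintype.card_bool,
          Fintype.card_fin, Fintype.card_fin]
        ring

end Pool.Agent.H654R5.PT
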